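import Mathlib

open Finset

namespace Pool.Agent.H673.Tight

variable {α : Type*} [DecidableEq α]

/-- a minimal non-empty member -/
def Atm (A : Finset (Finset α)) (a : Finset α) : Prop :=
  a ∈ A ∧ a ≠ ∅ ∧ ∀ X ∈ A, X ⊆ a → X = ∅ ∨ X = a

/-- the covering property of the minimal non-empty members -/
def Cov (A : Finset (Finset α)) : Prop :=
  ∀ a, Atm A a → ∀ X ∈ A, ∀ Y ∈ A, X ⊆ Y → Y ⊆ X ∪ a → Y = X ∨ Y = X ∪ a

lemma exists_atm {A : Finset (Finset α)} (h : ∃ X ∈ A, X ≠ ∅) : ∃ a, Atm A a := by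
  obtain ⟨X, hX, hX0⟩ := h
  obtain ⟨a, ha, hmin⟩ := Finset.exists_min_image (A.filter fun X => X ≠ ∅) Finset.card
    ⟨X, mem_filter.2 ⟨hX, hX0⟩⟩
  rw [mem_filter] at ha
  refine ⟨a, ha.1, ha.2, fun Y hY hYa => ?_⟩
  by_cases hY0 : Y = ∅
  · exact Or.inl hY0
  · right
    exact Finset.eq_of_subset_of_card_le hYa (hmin Y (mem_filter.2 ⟨hY, hY0⟩))

lemma inj {A : Finset (Finset α)} (hU : ∀ X ∈ A, ∀ Y ∈ A, X ∪ Y ∈ A) (hc : Cov A)
    {a : Finset α} (ha : Atm A a) {i : α} (hi : i ∈ a) :
    Set.InjOn (fun X => X ∪ a) (A.filter fun X => i ∉ X : Finset (Finset α)) := by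
  intro X hX Y hY hXY
  rw [mem_coe, mem_filter] at hX hY
  simp only at hXY
  have key : ∀ P Q : Finset α, P ∈ A → i ∉ P → Q ∈ A → i ∉ Q → P ∪ a = Q ∪ a → P ∪ Q = P := by
    intro P Q hP hiP hQ hiQ h
    rcases hc a ha P hP (P ∪ Q) (hU P hP Q hQ) subset_union_left (by
      rw [h]
      refine union_subset ?_ subset_union_left
      rw [← h]
      exact subset_union_left) with h1 | h1
    · exact h1
    · exfalso
      have : i ∈ P ∪ Q := by rw [h1]; exact mem_union_right _ hi
      rw [mem_union] at this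
      rcases this with h2 | h2
      · exact hiP h2
      · exact hiQ h2
  have e1 := key X Y hX.1 hX.2 hY.1 hY.2 hXY
  have e2 := key Y X hY.1 hY.2 hX.1 hX.2 hXY.symm
  rw [← e1, union_comm, e2]

lemma maps {A : Finset (Finset α)} (hU : ∀ X ∈ A, ∀ Y ∈ A, X ∪ Y ∈ A)
    {a : Finset α} (ha : Atm A a) {i : α} (hi : i ∈ a) :
    ∀ X ∈ (A.filter fun X => i ∉ X), X ∪ a ∈ (A.filter fun X => i ∈ X) := by
  intro X hX
  rw [mem_filter] at hX ⊢
  exact ⟨hU X hX.1 a ha.1, mem_union_right _ hi⟩

lemma le_of_cov {A : Finset (Finset α)} (hU : ∀ X ∈ A, ∀ Y ∈ A, X ∪ Y ∈ A) (hc : Cov A)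
    {a : Finset α} (ha : Atm A a) {i : α} (hi : i ∈ a) :
    (A.filter fun X => i ∉ X).card ≤ (A.filter fun X => i ∈ X).card :=
  card_le_card_of_injOn _ (maps hU ha hi) (inj hU hc ha hi)

lemma big {A : Finset (Finset α)} (hU : ∀ X ∈ A, ∀ Y ∈ A, X ∪ Y ∈ A) (hc : Cov A)
    (h : ∃ X ∈ A, X ≠ ∅) : ∃ i, A.card ≤ 2 * (A.filter fun X => i ∈ X).card := by
  obtain ⟨a, ha⟩ := exists_atm h
  obtain ⟨i, hi⟩ := Finset.nonempty_iff_ne_empty.2 ha.2.1
  refine ⟨i, ?_⟩
  have h1 := le_of_cov hU hc ha hi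
  have h2 := Finset.card_filter_add_card_filter_not (s := A) (fun X => i ∈ X)
  omega

theorem core : ∀ (n : ℕ) (A : Finset (Finset α)), A.card = n → ∅ ∈ A →
    (∀ X ∈ A, ∀ Y ∈ A, X ∪ Y ∈ A) → (∀ i, 2 * (A.filter fun X => i ∈ X).card ≤ A.card) →
    Cov A → ∃ k : ℕ, A.card = 2 ^ k := by
  intro n
  induction n using Nat.strong_induction_on with
  | _ n ih =>
    intro A hn h0 hU hf hc
    by_cases hne : ∃ X ∈ A, X ≠ ∅
    swap
    · push Not at hne
      refine ⟨0, ?_⟩
      rw [pow_zero, Finset.card_eq_one]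
      refine ⟨∅, ?_⟩
      ext X
      rw [mem_singleton]
      exact ⟨fun h => hne X h, fun h => h ▸ h0⟩
    obtain ⟨a, ha⟩ := exists_atm hne
    obtain ⟨i, hi⟩ := Finset.nonempty_iff_ne_empty.2 ha.2.1
    have h1 := le_of_cov hU hc ha hi
    have h2 : (A.filter fun X => i ∈ X).card + (A.filter fun X => i ∉ X).card = A.card :=
      Finset.card_filter_add_card_filter_not (s := A) (fun X => i ∈ X)
    have h3 := hf i
    have h4 : (A.filter fun X => i ∈ X).card = (A.filter fun X => i ∉ X).card := by omega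
    have h5 : A.card = 2 * (A.filter fun X => i ∉ X).card := by omega
    clear h1 h2 h3
    obtain ⟨A0, hA0⟩ : ∃ B, B = A.filter fun X => i ∉ X := ⟨_, rfl⟩
    obtain ⟨A1, hA1⟩ : ∃ B, B = A.filter fun X => i ∈ X := ⟨_, rfl⟩
    rw [← hA0] at h4 h5
    rw [← hA1] at h4
    have hsurj : ∀ Y ∈ A1, ∃ X ∈ A0, X ∪ a = Y := by
      have himg : A0.image (fun X => X ∪ a) = A1 := by
        apply Finset.eq_of_subset_of_card_le
        · intro Y hY
          rw [mem_image] at hY
          obtain ⟨X, hX, rfl⟩ := hY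
          rw [hA1]
          rw [hA0] at hX
          exact maps hU ha hi X hX
        · rw [card_image_of_injOn (by rw [hA0]; exact inj hU hc ha hi)]
          omega
      intro Y hY
      rw [← himg, mem_image] at hY
      exact hY
    have hA1pos : 0 < A1.card := by
      rw [hA1]
      exact card_pos.2 ⟨a, mem_filter.2 ⟨ha.1, hi⟩⟩
    have hA0card : A.card = 2 * A0.card := h5
    have hmem0 : ∀ X, X ∈ A0 ↔ X ∈ A ∧ i ∉ X := by intro X; rw [hA0, mem_filter]
    obtain ⟨k, hk⟩ := ih A0.card (by omega) A0 rfl ((hmem0 _).2 ⟨h0, by simp⟩)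
      (by
        intro X hX Y hY
        rw [hmem0] at hX hY ⊢
        refine ⟨hU X hX.1 Y hY.1, ?_⟩
        rw [mem_union]
        push Not
        exact ⟨hX.2, hY.2⟩)
      (by
        intro j
        have hj := hf j
        have hsplit := Finset.card_filter_add_card_filter_not (s := A.filter fun X => j ∈ X)
          (fun X => i ∈ X)
        have e0 : ((A.filter fun X => j ∈ X).filter fun X => i ∉ X) = A0.filter fun X => j ∈ X := by
          rw [hA0, filter_filter, filter_filter]
          congr 1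
          ext X
          tauto
        have e1 : ((A.filter fun X => j ∈ X).filter fun X => i ∈ X) = A1.filter fun X => j ∈ X := by
          rw [hA1, filter_filter, filter_filter]
          congr 1
          ext X
          tauto
        rw [e0, e1] at hsplit
        by_cases hja : j ∈ a
        · have : A1.filter (fun X => j ∈ X) = A1 := by
            rw [Finset.filter_eq_self]
            intro Y hY
            obtain ⟨X, hX, rfl⟩ := hsurj Y hY
            exact mem_union_right _ hja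
          rw [this] at hsplit
          omega
        · have : (A0.filter fun X => j ∈ X).card ≤ (A1.filter fun X => j ∈ X).card := by
            apply card_le_card_of_injOn (fun X => X ∪ a)
            · intro X hX
              rw [mem_coe, mem_filter] at hX ⊢
              rw [hA0] at hX
              rw [hA1]
              exact ⟨maps hU ha hi X hX.1, mem_union_left _ hX.2⟩
            · intro X hX Y hY h
              rw [mem_coe, mem_filter] at hX hY
              rw [hA0] at hX hY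
              exact inj hU hc ha hi (mem_coe.2 hX.1) (mem_coe.2 hY.1) h
          omega)
      (by
        intro b hb X hX Y hY hXY hYX
        refine hc b ⟨((hmem0 _).1 hb.1).1, hb.2.1, ?_⟩ X ((hmem0 _).1 hX).1 Y ((hmem0 _).1 hY).1 hXY hYX
        intro Z hZ hZb
        refine hb.2.2 Z ((hmem0 _).2 ⟨hZ, ?_⟩) hZb
        intro hiZ
        exact ((hmem0 _).1 hb.1).2 (hZb hiZ))
    exact ⟨k + 1, by rw [hA0card, hk, pow_succ]; ring⟩

/-- adding the empty set -/
lemma cov_insert {A : Finset (Finset α)} (hc : Cov A) : Cov (insert ∅ A) := by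
  intro a ha X hX Y hY hXY hYX
  have haA : Atm A a := by
    refine ⟨?_, ha.2.1, fun Z hZ hZa => ha.2.2 Z (mem_insert_of_mem hZ) hZa⟩
    rcases mem_insert.1 ha.1 with h | h
    · exact absurd h ha.2.1
    · exact h
  rcases mem_insert.1 hX with rfl | hX'
  · rw [empty_union] at hYX ⊢
    exact ha.2.2 Y hY hYX
  rcases mem_insert.1 hY with rfl | hY'
  · left
    exact (subset_empty.1 hXY).symm
  exact hc a haA X hX' Y hY' hXY hYX

lemma union_insert {A : Finset (Finset α)} (hU : ∀ X ∈ A, ∀ Y ∈ A, X ∪ Y ∈ A) :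
    ∀ X ∈ insert ∅ A, ∀ Y ∈ insert ∅ A, X ∪ Y ∈ insert ∅ A := by
  intro X hX Y hY
  rcases mem_insert.1 hX with rfl | hX'
  · rwa [empty_union]
  rcases mem_insert.1 hY with rfl | hY'
  · rw [union_empty]; exact hX
  exact mem_insert_of_mem (hU X hX' Y hY')

lemma filter_insert_empty (A : Finset (Finset α)) (i : α) :
    ((insert ∅ A).filter fun X => i ∈ X) = A.filter fun X => i ∈ X := by
  rw [filter_insert]
  simp

/-- general form: it is enough to have the covering property for the family with the empty set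
added -/
theorem tight_of_cov {A : Finset (Finset α)} (hne : ∃ X ∈ A, X ≠ ∅)
    (hU : ∀ X ∈ A, ∀ Y ∈ A, X ∪ Y ∈ A) (hf : ∀ i, 2 * (A.filter fun X => i ∈ X).card ≤ A.card)
    (hc : Cov (insert ∅ A)) : ∅ ∈ A ∧ ∃ k : ℕ, A.card = 2 ^ k := by
  obtain ⟨X, hX, hX0⟩ := hne
  have h0 : ∅ ∈ A := by
    by_contra h0
    obtain ⟨i, hi⟩ := big (union_insert hU) hc ⟨X, mem_insert_of_mem hX, hX0⟩
    rw [filter_insert_empty, card_insert_of_notMem h0] at hi
    have := hf i
    omega
  rw [insert_eq_of_mem h0] at hc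
  exact ⟨h0, core A.card A rfl h0 hU hf hc⟩

/-- removing a pair that is a member -/
lemma remove_pair {A : Finset (Finset α)} (h0 : ∅ ∈ A)
    (hU : ∀ X ∈ A, ∀ Y ∈ A, X ∪ Y ∈ A) (hf : ∀ i, 2 * (A.filter fun X => i ∈ X).card ≤ A.card)
    {i j : α} (hij : ({i, j} : Finset α) ∈ A) : ∀ X ∈ A, X \ {i, j} ∈ A := by
  -- the two classes
  set P := A.filter fun X => i ∉ X ∧ j ∉ X with hP
  set Q := A.filter fun X => i ∈ X ∧ j ∈ X with hQ
  have hinj : Set.InjOn (fun X => X ∪ {i, j}) (P : Set (Finset α)) := by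
    intro X hX Y hY h
    rw [mem_coe, hP, mem_filter] at hX hY
    simp only at h
    ext x
    by_cases hxi : x = i
    · subst hxi; exact ⟨fun h => absurd h hX.2.1, fun h => absurd h hY.2.1⟩
    by_cases hxj : x = j
    · subst hxj; exact ⟨fun h => absurd h hX.2.2, fun h => absurd h hY.2.2⟩
    have : x ∈ X ∪ {i, j} ↔ x ∈ Y ∪ {i, j} := by rw [h]
    simpa [hxi, hxj] using this
  have hmaps : ∀ X ∈ P, X ∪ {i, j} ∈ Q := by
    intro X hX
    rw [hP, mem_filter] at hX
    rw [hQ, mem_filter]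
    exact ⟨hU X hX.1 _ hij, by simp, by simp⟩
  have hle : P.card ≤ Q.card := card_le_card_of_injOn _ hmaps hinj
  -- counting
  have c1 := Finset.card_filter_add_card_filter_not (s := A) (fun X => i ∈ X)
  have c2 := Finset.card_filter_add_card_filter_not (s := A.filter fun X => i ∈ X) (fun X => j ∈ X)
  have c3 := Finset.card_filter_add_card_filter_not (s := A.filter fun X => i ∉ X) (fun X => j ∈ X)
  have c4 := Finset.card_filter_add_card_filter_not (s := A.filter fun X => j ∈ X) (fun X => i ∈ X)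
  have f1 := hf i
  have f2 := hf j
  rw [filter_filter, filter_filter] at c2 c3 c4
  have e1 : (A.filter fun X => j ∈ X ∧ i ∈ X) = Q := by
    rw [hQ]; congr 1; ext X; tauto
  have e2 : (A.filter fun X => j ∈ X ∧ ¬ i ∈ X) = A.filter fun X => i ∉ X ∧ j ∈ X := by
    congr 1; ext X; tauto
  rw [e1, e2] at c4
  have hQP : Q.card ≤ P.card := by
    have : P.card = (A.filter fun X => i ∉ X ∧ ¬ j ∈ X).card := by rw [hP]
    have : Q.card = (A.filter fun X => i ∈ X ∧ j ∈ X).card := by rw [hQ]
    omega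
  have himg : P.image (fun X => X ∪ {i, j}) = Q := by
    apply Finset.eq_of_subset_of_card_le
    · intro Y hY
      rw [mem_image] at hY
      obtain ⟨X, hX, rfl⟩ := hY
      exact hmaps X hX
    · rw [card_image_of_injOn hinj]
      exact hQP
  intro X hX
  have hXQ : X ∪ {i, j} ∈ Q := by
    rw [hQ, mem_filter]
    exact ⟨hU X hX _ hij, by simp, by simp⟩
  rw [← himg, mem_image] at hXQ
  obtain ⟨Z, hZ, hZX⟩ := hXQ
  rw [hP, mem_filter] at hZ
  have : X \ {i, j} = Z := by
    ext x
    rw [mem_sdiff]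
    by_cases hxi : x = i
    · subst hxi; simp [hZ.2.1]
    by_cases hxj : x = j
    · subst hxj; simp [hZ.2.2]
    have : x ∈ Z ∪ {i, j} ↔ x ∈ X ∪ {i, j} := by rw [hZX]
    simp [hxi, hxj] at this ⊢
    exact this.symm
  rw [this]
  exact hZ.1

theorem cov_of_pairs {A : Finset (Finset α)} (h0 : ∅ ∈ A)
    (hU : ∀ X ∈ A, ∀ Y ∈ A, X ∪ Y ∈ A) (hf : ∀ i, 2 * (A.filter fun X => i ∈ X).card ≤ A.card)
    (hg : ∀ X ∈ A, ∀ x ∈ X, ∃ Y ∈ A, x ∈ Y ∧ Y ⊆ X ∧ Y.card ≤ 2) : Cov A := by
  intro a ha X hX Y hY hXY hYX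
  by_cases hYe : Y = X
  · exact Or.inl hYe
  right
  -- an element of `Y` outside `X`
  obtain ⟨i, hiY, hiX⟩ : ∃ i ∈ Y, i ∉ X := by
    by_contra h
    push Not at h
    exact hYe (Finset.Subset.antisymm h hXY)
  have hia : i ∈ a := by
    have := hYX hiY
    rw [mem_union] at this
    rcases this with h | h
    · exact absurd h hiX
    · exact h
  -- it is enough to show `a ⊆ Y`
  suffices h : a ⊆ Y from Finset.Subset.antisymm hYX (union_subset hXY h)
  -- `a` has at most two elements
  obtain ⟨b, hb, hib, hba, hbc⟩ := hg a ha.1 i hia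
  have hba' : b = a := by
    rcases ha.2.2 b hb hba with h | h
    · rw [h] at hib; simp at hib
    · exact h
  subst hba'
  intro j hj
  by_contra hjY
  have hij : i ≠ j := fun h => hjY (h ▸ hiY)
  have haij : b = {i, j} := by
    symm
    apply Finset.eq_of_subset_of_card_le
    · intro x hx
      rw [mem_insert, mem_singleton] at hx
      rcases hx with rfl | rfl
      · exact hia
      · exact hj
    · rw [Finset.card_pair hij]; exact hbc
  -- a small member containing `i` inside `Y`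
  obtain ⟨Z, hZ, hiZ, hZY, hZc⟩ := hg Y hY i hiY
  have hZne : Z ≠ {i} := by
    intro h
    rcases ha.2.2 Z hZ (by rw [h, haij]; simp) with h1 | h1
    · rw [h1] at hiZ; simp at hiZ
    · rw [← h1, h] at hj
      rw [mem_singleton] at hj
      exact hij hj.symm
  obtain ⟨k, hkZ, hki⟩ : ∃ k ∈ Z, k ≠ i := by
    by_contra h
    push Not at h
    apply hZne
    ext x
    rw [mem_singleton]
    exact ⟨fun hx => h x hx, fun hx => hx ▸ hiZ⟩
  have hZik : Z = {i, k} := by
    symm
    apply Finset.eq_of_subset_of_card_le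
    · intro x hx
      rw [mem_insert, mem_singleton] at hx
      rcases hx with rfl | rfl
      · exact hiZ
      · exact hkZ
    · rw [Finset.card_pair hki.symm]; exact hZc
  have hkj : k ≠ j := fun h => hjY (h ▸ hZY hkZ)
  have hrem := remove_pair h0 hU hf (i := i) (j := k) (hZik ▸ hZ) b hb
  have hbj : b \ {i, k} = {j} := by
    rw [haij]
    ext x
    simp only [mem_sdiff, mem_insert, mem_singleton]
    constructor
    · rintro ⟨h1 | h1, h2⟩
      · exact absurd (Or.inl h1) h2
      · exact h1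
    · rintro rfl
      exact ⟨Or.inr rfl, by push Not; exact ⟨hij.symm, hkj.symm⟩⟩
  rw [hbj] at hrem
  rcases ha.2.2 _ hrem (by simpa using hj) with h1 | h1
  · simp at h1
  · rw [← h1, mem_singleton] at hia
    exact hij hia

end Pool.Agent.H673.Tight
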